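import Pool.Agent.Helper59.EXP.St.W1

/-!
EXP-W2: the cleaned percolation is a forest.
-/

namespace Pool.Agent.Helper59.EXP

open Pool.Agent.Helper59.EX

variable {G I : Type} [Group G]

/-- A member of `R` contained in a reduced word contains a minimal one. -/
theorem exists_minWord (R : Set (List (I × Bool))) (w : List (I × Bool))
    (hw : FreeGroup.IsReduced w) (r : List (I × Bool)) (hr : r ∈ R) (hrw : r <:+: w) :
    ∃ r' ∈ minWords R, r' <:+: w := by
  classical
  have hex : ∃ n : ℕ, ∃ r' ∈ R, r' <:+: w ∧ r'.length = n := ⟨r.length, r, hr, hrw, rfl⟩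
  obtain ⟨r', hr', hr'w, hlen⟩ := Nat.find_spec hex
  refine ⟨r', ⟨reduced_sub hw hr'w, hr', ?_⟩, hr'w⟩
  intro r'' hr'' h
  apply h.eq_of_length_le
  rw [hlen]
  exact Nat.find_min' hex ⟨r'', hr'', h.trans hr'w, rfl⟩

/-- The label of a nonempty closed walk with distinct edges contains a minimal forbidden word, and
the corresponding part of the walk would have been deleted. -/
theorem isForest_cleaned (s : I → G) (R : Set (List (I × Bool))) (hR : Forbids s R)
    (hne : [] ∉ R) (η : G × I → Bool) : IsForest s (cleaned s (minWords R) η) := by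
  intro a l hl hmem hnd
  by_contra hnil
  have hred := reduced_of_nodup s a a l hl hnd
  obtain ⟨h1, h2⟩ := eq_walkOf s a a l hl
  have hval : wval s (labels l) = 1 := left_eq_mul.1 h2
  have hlne : labels l ≠ [] := by
    intro h0
    apply hnil
    rw [h1, h0]
    rfl
  obtain ⟨r, hr, hrl⟩ := hR _ hred hlne hval
  obtain ⟨r', hr', hr'l⟩ := exists_minWord R _ hred r hr hrl
  obtain ⟨u, v, huv⟩ := hr'l
  have hr'ne : r' ≠ [] := by
    intro h0
    apply hne
    rw [← h0]
    exact hr'.2.1
  have hsplit : l = walkOf s a u ++ walkOf s (a * wval s u) r' ++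
      walkOf s (a * wval s (u ++ r')) v := by
    rw [h1, ← huv, walkOf_append, walkOf_append]
  have hsub : ∀ x ∈ walkOf s (a * wval s u) r', x ∈ l := by
    intro x hx
    rw [hsplit]
    exact List.mem_append_left _ (List.mem_append_right _ hx)
  have hwne : walkOf s (a * wval s u) r' ≠ [] := by
    intro h0
    apply hr'ne
    rw [← labels_walkOf s (a * wval s u) r', h0]
    rfl
  obtain ⟨x, hx⟩ := List.exists_mem_of_ne_nil _ hwne
  exact (hmem x (hsub x hx)).2 ⟨r', hr', a * wval s u, fun y hy => (hmem y (hsub y hy)).1, x, hx,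
    rfl⟩

end Pool.Agent.Helper59.EXP
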