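import Pool.Agent.Helper59.EXP.St.W1

/-!
EXP-W3: measurability and invariance.
-/

open MeasureTheory

namespace Pool.Agent.Helper59.EXP

open Pool.Agent.Helper59.EX

variable {G I : Type} [Group G]

private theorem W3_walkOf_mul (s : I → G) (h g : G) (w : List (I × Bool)) :
    walkOf s (h * g) w = (walkOf s g w).map fun x => ((h * x.1.1, x.1.2), x.2) := by
  induction w generalizing g with
  | nil => rfl
  | cons x w ih =>
    obtain ⟨i, t⟩ := x
    cases t with
    | false =>
      change ((h * g * (s i)⁻¹, i), false) :: walkOf s (h * g * (s i)⁻¹) w =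
        ((h * (g * (s i)⁻¹), i), false) :: _
      rw [mul_assoc h g, ih]
    | true =>
      change ((h * g, i), true) :: walkOf s (h * g * s i) w = ((h * g, i), true) :: _
      rw [mul_assoc h g, ih]

private theorem W3_finite (s : I → G) (r : List (I × Bool)) (e : G × I) :
    {g : G | ∃ x ∈ walkOf s g r, x.1 = e}.Finite := by
  classical
  refine (((walkOf s 1 r).toFinset.image fun x => e.1 * x.1.1⁻¹).finite_toSet).subset ?_
  rintro g ⟨x, hx, hxe⟩
  have h1 : walkOf s g r = (walkOf s 1 r).map fun x => ((g * x.1.1, x.1.2), x.2) := by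
    rw [← W3_walkOf_mul s g 1 r, mul_one]
  rw [h1, List.mem_map] at hx
  obtain ⟨y, hy, rfl⟩ := hx
  rw [Finset.mem_coe, Finset.mem_image]
  refine ⟨y, List.mem_toFinset.mpr hy, ?_⟩
  rw [← hxe]
  exact mul_inv_cancel_right g y.1.1

omit [Group G] in
private theorem W3_edge (e : G × I) : MeasurableSet {η : G × I → Bool | η e = true} := by
  have h : {η : G × I → Bool | η e = true} = (fun η : G × I → Bool => η e) ⁻¹' {true} := by
    ext η
    exact Iff.rfl
  rw [h]
  exact measurable_pi_apply e (measurableSet_singleton true)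

private theorem W3_ind {E E' : Type} (S : Set E) (T : Set E') (e : E) (e' : E')
    (h : e ∈ S ↔ e' ∈ T) : ind S e = ind T e' := by
  classical
  have h1 : ∀ {F : Type} (R : Set F) (f : F), ind R f = true ↔ f ∈ R := by
    intro F R f
    unfold ind
    exact decide_eq_true_iff
  exact Bool.eq_iff_iff.mpr ((h1 S e).trans (h.trans (h1 T e').symm))

omit [Group G] in
private theorem W3_measurableSet_walk (l : List ((G × I) × Bool)) :
    MeasurableSet {η : G × I → Bool | ∀ x ∈ l, η x.1 = true} := by
  have h : {η : G × I → Bool | ∀ x ∈ l, η x.1 = true} =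
      ⋂ x ∈ {x | x ∈ l}, {η : G × I → Bool | η x.1 = true} := by
    ext η
    simp only [Set.mem_ofPred_eq, Set.mem_iInter]
  rw [h]
  exact MeasurableSet.biInter (List.finite_toSet l).countable fun x _ => W3_edge x.1

/-- For a fixed edge only countably many pairs `(g, r)` matter: `r` runs through a countable set
(lists over a finite type), and `g` is determined by `r`, the edge and its position in the walk
(the group `G` may be uncountable). -/
theorem measurable_cleaned [Finite I] (s : I → G) (M : Set (List (I × Bool))) :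
    Measurable fun η : G × I → Bool => ind (cleaned s M η) := by
  classical
  rw [measurable_pi_iff]
  intro e
  have hset : MeasurableSet {η : G × I → Bool | e ∈ cleaned s M η} := by
    have h1 : {η : G × I → Bool | e ∈ cleaned s M η} =
        {η : G × I → Bool | η e = true} \
          ⋃ r : List (I × Bool), ⋃ _ : r ∈ M, ⋃ g ∈ {g : G | ∃ x ∈ walkOf s g r, x.1 = e},
            {η : G × I → Bool | ∀ x ∈ walkOf s g r, η x.1 = true} := by
      ext η
      simp only [cleaned, Set.mem_ofPred_eq, Set.mem_sdiff, Set.mem_iUnion, exists_prop]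
      constructor
      · rintro ⟨h2, h3⟩
        refine ⟨h2, ?_⟩
        rintro ⟨r, hr, g, hg, h4⟩
        exact h3 ⟨r, hr, g, h4, hg⟩
      · rintro ⟨h2, h3⟩
        refine ⟨h2, ?_⟩
        rintro ⟨r, hr, g, h4, hg⟩
        exact h3 ⟨r, hr, g, hg, h4⟩
    rw [h1]
    refine MeasurableSet.diff (W3_edge e) ?_
    have hc : Countable (List (I × Bool)) := by
      haveI : Countable I := Finite.to_countable
      infer_instance
    refine MeasurableSet.iUnion fun r => MeasurableSet.iUnion fun _ => ?_
    exact MeasurableSet.biUnion (W3_finite s r e).countable fun g _ => W3_measurableSet_walk _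
  have h2 : (fun η : G × I → Bool => ind (cleaned s M η) e) =
      fun η => decide (e ∈ cleaned s M η) := by
    funext η
    unfold ind
    exact Bool.decide_congr Iff.rfl
  rw [h2]
  refine measurable_to_bool ?_
  have h3 : (fun η : G × I → Bool => decide (e ∈ cleaned s M η)) ⁻¹' {true} =
      {η : G × I → Bool | e ∈ cleaned s M η} := by
    ext η
    simp only [Set.mem_preimage, Set.mem_singleton_iff, decide_eq_true_eq, Set.mem_ofPred_eq]
  rw [h3]
  exact hset

private theorem W3_mem_cleaned (s : I → G) (M : Set (List (I × Bool))) (g : G)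
    (η : G × I → Bool) (e : G × I) :
    e ∈ cleaned s M (trans g η) ↔ (g⁻¹ * e.1, e.2) ∈ cleaned s M η := by
  have key : ∀ h : G, ∀ r : List (I × Bool),
      ((∀ x ∈ walkOf s (g * h) r, trans g η x.1 = true) ∧ ∃ x ∈ walkOf s (g * h) r, x.1 = e) ↔
      ((∀ x ∈ walkOf s h r, η x.1 = true) ∧ ∃ x ∈ walkOf s h r, x.1 = (g⁻¹ * e.1, e.2)) := by
    intro h r
    rw [W3_walkOf_mul]
    simp only [List.mem_map]
    constructor
    · rintro ⟨h1, x, ⟨y, hy, rfl⟩, rfl⟩
      refine ⟨fun y hy => ?_, y, hy, ?_⟩
      · have h2 := h1 _ ⟨y, hy, rfl⟩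
        unfold trans at h2
        simpa using h2
      · simp
    · rintro ⟨h1, y, hy, h2⟩
      refine ⟨?_, _, ⟨y, hy, rfl⟩, ?_⟩
      · rintro x ⟨z, hz, rfl⟩
        have h3 := h1 z hz
        unfold trans
        simpa using h3
      · change (g * y.1.1, y.1.2) = e
        rw [h2]
        simp
  unfold cleaned
  simp only [Set.mem_ofPred_eq]
  refine and_congr Iff.rfl (not_congr ?_)
  constructor
  · rintro ⟨r, hr, h, h1⟩
    refine ⟨r, hr, g⁻¹ * h, ?_⟩
    rw [← key, mul_inv_cancel_left]
    exact h1
  · rintro ⟨r, hr, h, h1⟩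
    exact ⟨r, hr, g * h, (key h r).mpr h1⟩

theorem cleaned_trans (s : I → G) (M : Set (List (I × Bool))) (g : G) (η : G × I → Bool) :
    ind (cleaned s M (trans g η)) = trans g (ind (cleaned s M η)) := by
  funext e
  exact W3_ind _ _ e (g⁻¹ * e.1, e.2) (W3_mem_cleaned s M g η e)

theorem measurable_trans (g : G) : Measurable (trans g : (G × I → Bool) → (G × I → Bool)) :=
  measurable_pi_iff.mpr fun e => measurable_pi_apply (g⁻¹ * e.1, e.2)

theorem pi_trans (β : Measure Bool) [IsProbabilityMeasure β] (g : G) :
    (Measure.infinitePi fun _ : G × I => β).map (trans g) =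
      Measure.infinitePi fun _ : G × I => β := by
  classical
  refine Measure.eq_infinitePi (fun _ : G × I => β)
    (ν := (Measure.infinitePi fun _ : G × I => β).map (trans g)) ?_
  intro s t ht
  rw [Measure.map_apply (measurable_trans g)
    (MeasurableSet.pi s.countable_toSet (fun i _ => ht i))]
  have h1 : (trans g : (G × I → Bool) → (G × I → Bool)) ⁻¹' (Set.pi (s : Set (G × I)) t) =
      Set.pi ((s.image (fun h : G × I => (g⁻¹ * h.1, h.2)) : Finset (G × I)) : Set (G × I))
        (fun k => t (g * k.1, k.2)) := by
    ext x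
    simp only [Set.mem_preimage, Set.mem_pi, Finset.coe_image, Set.mem_image, trans,
      Finset.mem_coe]
    constructor
    · rintro hx k ⟨h, hh, rfl⟩
      have := hx h hh
      simpa using this
    · intro hx h hh
      have := hx (g⁻¹ * h.1, h.2) ⟨h, hh, rfl⟩
      simpa using this
  rw [h1, Measure.infinitePi_pi (fun _ : G × I => β) (fun i _ => ht _)]
  rw [Finset.prod_image (fun a _ b _ hab => by
    have h2 := (Prod.mk.inj hab).1
    have h3 := (Prod.mk.inj hab).2
    exact Prod.ext (mul_left_cancel h2) h3)]
  refine Finset.prod_congr rfl fun h _ => ?_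
  simp

/-- The law of an equivariant image of an invariant random configuration is invariant. -/
theorem map_equivariant {K : Type} (P : Measure (G × I → Bool)) (hP : ∀ g : G, P.map (trans g) = P)
    (F : (G × I → Bool) → (G × K → Bool)) (hF : Measurable F)
    (hF' : ∀ g η, F (trans g η) = trans g (F η)) (g : G) :
    (P.map F).map (trans g) = P.map F := by
  rw [Measure.map_map (measurable_trans g) hF]
  have h : (trans g ∘ F) = F ∘ trans g := by
    funext η
    exact (hF' g η).symm
  rw [h, ← Measure.map_map hF (measurable_trans g), hP]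

end Pool.Agent.Helper59.EXP
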