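import Pool.Agent.Helper59.EXP.St.W3

/-!
EXP-W4: the density of the cleaned percolation.
-/

open MeasureTheory

namespace Pool.Agent.Helper59.EXP

open Pool.Agent.Helper59.EX

variable {G I : Type} [Group G]

/-- The probability that all edges of a finite set are open. -/
theorem prob_open (β : Measure Bool) [IsProbabilityMeasure β] (p : ℝ) (hp : β.real {true} = p)
    (F : Finset (G × I)) :
    (Measure.infinitePi fun _ : G × I => β).real {η | ∀ e ∈ F, η e = true} = p ^ F.card := by
  have h1 : {η : G × I → Bool | ∀ e ∈ F, η e = true} =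
      Set.pi (F : Set (G × I)) (fun _ => ({true} : Set Bool)) := by
    ext η
    simp [Set.mem_pi]
  rw [h1, measureReal_def, Measure.infinitePi_pi (μ := fun _ : G × I => β)
    (fun _ _ => MeasurableSet.singleton true), Finset.prod_const, ENNReal.toReal_pow,
    ← measureReal_def, hp]

private theorem w4_length (s : I → G) (g : G) (r : List (I × Bool)) :
    (walkOf s g r).length = r.length := by
  have h := congrArg List.length (labels_walkOf s g r)
  rw [labels, List.length_map] at h
  exact h

/-- The open event of a walk with distinct edges. -/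
private theorem w4_open (s : I → G) (R : Set (List (I × Bool))) (hR : Forbids s R)
    (β : Measure Bool) [IsProbabilityMeasure β] (p : ℝ) (hp : β.real {true} = p)
    (r : List (I × Bool)) (hr : r ∈ minWords R) (g : G) :
    (Measure.infinitePi fun _ : G × I => β) {η | ∀ x ∈ walkOf s g r, η x.1 = true} =
      ENNReal.ofReal (p ^ r.length) := by
  classical
  have h1 : {η : G × I → Bool | ∀ x ∈ walkOf s g r, η x.1 = true} =
      {η | ∀ e ∈ ((walkOf s g r).map Prod.fst).toFinset, η e = true} := by
    ext η
    simp only [Set.mem_ofPred_eq, List.mem_toFinset, List.mem_map, forall_exists_index, and_imp,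
      forall_apply_eq_imp_iff₂]
  have h2 := prob_open (G := G) (I := I) β p hp ((walkOf s g r).map Prod.fst).toFinset
  rw [List.toFinset_card_of_nodup (nodup_walkOf s R hR r hr g), List.length_map, w4_length,
    measureReal_def] at h2
  rw [h1, ← h2, ENNReal.ofReal_toReal]
  exact measure_ne_top _ _

/-- The starting vertex of the translate of the walk whose `j`-th edge starts at `1`. -/
private def w4_start (s : I → G) (r : List (I × Bool)) (j : Fin r.length) : G :=
  ((walkOf s 1 r)[j.1]'(by rw [w4_length]; exact j.2)).1.1⁻¹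

private theorem w4_cover (s : I → G) (M : Set (List (I × Bool))) (i : I) (η : G × I → Bool)
    (h : ∃ r ∈ M, ∃ g : G, (∀ x ∈ walkOf s g r, η x.1 = true) ∧
      ∃ x ∈ walkOf s g r, x.1 = ((1 : G), i)) :
    ∃ r : M, ∃ j : Fin r.1.length, (r.1.get j).1 = i ∧
      ∀ x ∈ walkOf s (w4_start s r.1 j) r.1, η x.1 = true := by
  obtain ⟨r, hr, g, hg, x, hx, hxe⟩ := h
  obtain ⟨n, hnl, hn⟩ := List.mem_iff_getElem.1 hx
  have hnr : n < r.length := by rw [← w4_length s g r]; exact hnl
  refine ⟨⟨r, hr⟩, ⟨n, hnr⟩, ?_, ?_⟩
  · have h1 : (labels (walkOf s g r))[n]'(by rw [labels_walkOf]; exact hnr) = r[n] := by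
      simp only [labels_walkOf]
    have h2 : (labels (walkOf s g r))[n]'(by rw [labels_walkOf]; exact hnr) =
        (((walkOf s g r)[n]).1.2, ((walkOf s g r)[n]).2) := by
      simp only [labels, List.getElem_map]
    rw [h1, hn, hxe] at h2
    change (r[n]).1 = i
    rw [h2]
  · have h3 : w4_start s r ⟨n, hnr⟩ = g := by
      have h4 : walkOf s g r = (walkOf s 1 r).map fun e => ((g * e.1.1, e.1.2), e.2) := by
        rw [← walkOf_mul, mul_one]
      have h6 := List.getElem_of_eq h4 hnl
      rw [List.getElem_map, hn] at h6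
      have h7 := congrArg (fun y => y.1.1) h6
      simp only [hxe] at h7
      unfold w4_start
      exact (eq_inv_of_mul_eq_one_left h7.symm).symm
    change ∀ x ∈ walkOf s (w4_start s r ⟨n, hnr⟩) r, η x.1 = true
    rw [h3]
    exact hg

/-- The expected number of deleted edges at a vertex is at most the sum of `|r| p ^ |r|` over the
minimal forbidden words. (Union bound over the words `r`, the positions `j` in `r` and the vertex
`g` such that the `j`-th edge of `walkOf s g r` is `(1, i)`; the edges of this walk are distinct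
by `nodup_walkOf`, so it is open with probability `p ^ |r|`.) -/
theorem prob_cleaned [Fintype I] (s : I → G) (R : Set (List (I × Bool))) (hR : Forbids s R)
    (β : Measure Bool) [IsProbabilityMeasure β] (p : ℝ) (hp : β.real {true} = p) (C : ℝ)
    (hC : ∀ F : Finset (List (I × Bool)), (∀ r ∈ F, r ∈ minWords R) →
      ∑ r ∈ F, (r.length : ℝ) * p ^ r.length ≤ C) :
    (Fintype.card I : ℝ) * p - C ≤ ∑ i : I, (Measure.infinitePi fun _ : G × I => β).real
      {η | ((1 : G), i) ∈ cleaned s (minWords R) η} := by
  classical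
  set P : Measure (G × I → Bool) := Measure.infinitePi fun _ : G × I => β with hP
  have hp0 : 0 ≤ p := hp ▸ measureReal_nonneg
  have hC0 : 0 ≤ C := by simpa using hC ∅ (by simp)
  set M := minWords R with hM
  set B : I → Set (G × I → Bool) := fun i => {η | ∃ r ∈ M, ∃ g : G,
    (∀ x ∈ walkOf s g r, η x.1 = true) ∧ ∃ x ∈ walkOf s g r, x.1 = ((1 : G), i)} with hB
  have h1 : ∀ i, p ≤ P.real {η | ((1 : G), i) ∈ cleaned s M η} + P.real (B i) := by
    intro i
    have h2 : P.real {η : G × I → Bool | ∀ e ∈ ({((1 : G), i)} : Finset (G × I)), η e = true} =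
        p := by
      rw [hP, prob_open β p hp, Finset.card_singleton, pow_one]
    rw [← h2]
    refine le_trans (measureReal_mono ?_) (measureReal_union_le _ _)
    intro η hη
    have hη1 : η ((1 : G), i) = true := hη _ (Finset.mem_singleton_self _)
    by_cases hb : η ∈ B i
    · exact Or.inr hb
    · exact Or.inl ⟨hη1, hb⟩
  have h3 : ∀ i, P (B i) ≤ ∑' r : M, ∑ j : Fin r.1.length,
      if (r.1.get j).1 = i then ENNReal.ofReal (p ^ r.1.length) else 0 := by
    intro i
    have h4 : B i ⊆ ⋃ r : M, ⋃ j : Fin r.1.length,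
        {η | (r.1.get j).1 = i ∧ ∀ x ∈ walkOf s (w4_start s r.1 j) r.1, η x.1 = true} := by
      intro η hη
      obtain ⟨r, j, h5, h6⟩ := w4_cover s M i η hη
      exact Set.mem_iUnion.2 ⟨r, Set.mem_iUnion.2 ⟨j, h5, h6⟩⟩
    refine (measure_mono h4).trans ((measure_iUnion_le _).trans ?_)
    refine ENNReal.tsum_le_tsum fun r => ?_
    refine (measure_iUnion_fintype_le _ _).trans ?_
    refine Finset.sum_le_sum fun j _ => ?_
    by_cases hj : (r.1.get j).1 = i
    · rw [if_pos hj, ← w4_open s R hR β p hp r.1 r.2 (w4_start s r.1 j)]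
      exact measure_mono fun η hη => hη.2
    · rw [if_neg hj]
      have h7 : {η : G × I → Bool | (r.1.get j).1 = i ∧
          ∀ x ∈ walkOf s (w4_start s r.1 j) r.1, η x.1 = true} = ∅ := by
        ext η
        simp only [Set.mem_ofPred_eq, Set.mem_empty_iff_false, iff_false, not_and]
        exact fun h => absurd h hj
      rw [h7, measure_empty]
  have h8 : ∑ i, P (B i) ≤ ENNReal.ofReal C := by
    calc ∑ i, P (B i) ≤ ∑ i, ∑' r : M, ∑ j : Fin r.1.length,
          (if (r.1.get j).1 = i then ENNReal.ofReal (p ^ r.1.length) else 0) :=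
        Finset.sum_le_sum fun i _ => h3 i
      _ = ∑' r : M, ∑ i, ∑ j : Fin r.1.length,
          (if (r.1.get j).1 = i then ENNReal.ofReal (p ^ r.1.length) else 0) :=
        (Summable.tsum_finsetSum fun _ _ => ENNReal.summable).symm
      _ = ∑' r : M, ENNReal.ofReal ((r.1.length : ℝ) * p ^ r.1.length) := by
        refine tsum_congr fun r => ?_
        rw [Finset.sum_comm]
        simp only [Finset.sum_ite_eq, Finset.mem_univ, if_true, Finset.sum_const,
          Finset.card_univ, Fintype.card_fin, nsmul_eq_mul]
        rw [ENNReal.ofReal_mul (by positivity), ENNReal.ofReal_natCast]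
      _ ≤ ENNReal.ofReal C := by
        rw [ENNReal.tsum_eq_iSup_sum]
        refine iSup_le fun F => ?_
        rw [← ENNReal.ofReal_sum_of_nonneg (fun r _ => by positivity)]
        refine ENNReal.ofReal_le_ofReal ?_
        have h9 := hC (F.map (Function.Embedding.subtype _)) (by
          intro r hr
          obtain ⟨r', _, rfl⟩ := Finset.mem_map.1 hr
          exact r'.2)
        rw [Finset.sum_map] at h9
        exact h9
  have h10 : ∑ i, P.real (B i) ≤ C := by
    have h11 : ∑ i, P.real (B i) = (∑ i, P (B i)).toReal := by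
      rw [ENNReal.toReal_sum fun i _ => measure_ne_top _ _]
      rfl
    rw [h11]
    exact ENNReal.toReal_le_of_le_ofReal hC0 h8
  have h12 : (Fintype.card I : ℝ) * p ≤
      ∑ i, (P.real {η | ((1 : G), i) ∈ cleaned s M η} + P.real (B i)) := by
    calc (Fintype.card I : ℝ) * p = ∑ _i : I, p := by
          rw [Finset.sum_const, Finset.card_univ, nsmul_eq_mul]
      _ ≤ _ := Finset.sum_le_sum fun i _ => h1 i
  rw [Finset.sum_add_distrib] at h12
  linarith

end Pool.Agent.Helper59.EXP
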