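import Pool.Agent.Helper59.EXP.St.W3

/-!
EXP-W5: passing to a free subgroup.
-/

open MeasureTheory

namespace Pool.Agent.Helper59.EXP

open Pool.Agent.Helper59.EX

variable {G I K : Type} [Group G]

private theorem W5_lbl_walkOf (s : I → G) (g : G) (w : List (I × Bool)) :
    wlbl FreeGroup.of (walkOf s g w) = (FreeGroup.mk w : FreeGroup I) := by
  induction w generalizing g with
  | nil => rfl
  | cons y w ih =>
    obtain ⟨i, d⟩ := y
    cases d with
    | true =>
      change FreeGroup.of i * wlbl FreeGroup.of (walkOf s (g * s i) w) = _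
      rw [ih]
      change FreeGroup.mk [(i, true)] * FreeGroup.mk w = _
      rw [FreeGroup.mul_mk]
      rfl
    | false =>
      change (FreeGroup.of i)⁻¹ * wlbl FreeGroup.of (walkOf s (g * (s i)⁻¹) w) = _
      rw [ih]
      change (FreeGroup.mk [(i, true)])⁻¹ * FreeGroup.mk w = _
      rw [FreeGroup.inv_mk, FreeGroup.mul_mk]
      rfl

/-- The walk in the Cayley graph for `s` which corresponds to a walk for the words `x`. -/
private def W5_expand (s : I → G) (x : K → List (I × Bool)) :
    List ((G × K) × Bool) → List ((G × I) × Bool)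
  | [] => []
  | (e, true) :: l => walkOf s e.1 (x e.2) ++ W5_expand s x l
  | (e, false) :: l => N1_rev (walkOf s e.1 (x e.2)) ++ W5_expand s x l

private theorem W5_walk_expand (s : I → G) (x : K → List (I × Bool))
    (l : List ((G × K) × Bool)) (a b : G) (h : IsWalk (fun k => wval s (x k)) a l b) :
    IsWalk s a (W5_expand s x l) b := by
  induction l generalizing a with
  | nil => exact h
  | cons y l ih =>
    obtain ⟨e, d⟩ := y
    cases d with
    | true =>
      obtain ⟨h1, h2⟩ := h
      change IsWalk s a (walkOf s e.1 (x e.2) ++ W5_expand s x l) b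
      rw [N1_walk_append]
      refine ⟨_, ?_, ih _ h2⟩
      rw [← h1]
      exact isWalk_walkOf s e.1 (x e.2)
    | false =>
      obtain ⟨h1, h2⟩ := h
      change IsWalk s a (N1_rev (walkOf s e.1 (x e.2)) ++ W5_expand s x l) b
      rw [N1_walk_append]
      refine ⟨_, ?_, ih _ h2⟩
      rw [← h1]
      exact N1_walk_rev s _ _ _ (isWalk_walkOf s e.1 (x e.2))

private theorem W5_mem_expand (s : I → G) (x : K → List (I × Bool)) (ω : Set (G × I))
    (l : List ((G × K) × Bool)) (h : ∀ e ∈ l, e.1 ∈ thick s x ω) :
    ∀ y ∈ W5_expand s x l, y.1 ∈ ω := by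
  induction l with
  | nil => intro y hy; exact absurd hy List.not_mem_nil
  | cons y l ih =>
    obtain ⟨e, d⟩ := y
    have he : e ∈ thick s x ω := h (e, d) List.mem_cons_self
    have hl := ih fun e he => h e (List.mem_cons_of_mem _ he)
    intro z hz
    cases d with
    | true =>
      rcases List.mem_append.1 hz with hz | hz
      · exact he z hz
      · exact hl z hz
    | false =>
      rcases List.mem_append.1 hz with hz | hz
      · obtain ⟨t, ht, h1⟩ := N1_mem_rev _ z hz
        rw [← h1]
        exact he t ht
      · exact hl z hz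

private theorem W5_lbl_expand (s : I → G) (x : K → List (I × Bool))
    (l : List ((G × K) × Bool)) :
    wlbl FreeGroup.of (W5_expand s x l) =
      FreeGroup.lift (fun k => (FreeGroup.mk (x k) : FreeGroup I)) (FreeGroup.mk (labels l)) := by
  induction l with
  | nil =>
    change (1 : FreeGroup I) = FreeGroup.lift _ (1 : FreeGroup K)
    rw [map_one]
  | cons y l ih =>
    obtain ⟨e, d⟩ := y
    cases d with
    | true =>
      change wlbl FreeGroup.of (walkOf s e.1 (x e.2) ++ W5_expand s x l) =
        FreeGroup.lift _ (FreeGroup.mk ((e.2, true) :: labels l))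
      rw [N1_lbl_append, ih, W5_lbl_walkOf]
      have h : (FreeGroup.mk ((e.2, true) :: labels l) : FreeGroup K) =
          FreeGroup.of e.2 * FreeGroup.mk (labels l) := by
        change _ = FreeGroup.mk [(e.2, true)] * FreeGroup.mk (labels l)
        rw [FreeGroup.mul_mk]
        rfl
      rw [h, map_mul, FreeGroup.lift_apply_of]
    | false =>
      change wlbl FreeGroup.of (N1_rev (walkOf s e.1 (x e.2)) ++ W5_expand s x l) =
        FreeGroup.lift _ (FreeGroup.mk ((e.2, false) :: labels l))
      rw [N1_lbl_append, ih, N1_lbl_rev, W5_lbl_walkOf]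
      have h : (FreeGroup.mk ((e.2, false) :: labels l) : FreeGroup K) =
          (FreeGroup.of e.2)⁻¹ * FreeGroup.mk (labels l) := by
        change _ = (FreeGroup.mk [(e.2, true)])⁻¹ * FreeGroup.mk (labels l)
        rw [FreeGroup.inv_mk, FreeGroup.mul_mk]
        rfl
      rw [h, map_mul, map_inv, FreeGroup.lift_apply_of]

/-- A closed walk in `thick s x ω` with distinct edges gives a reduced nonempty word over `K`
(`reduced_of_nodup`), and a closed walk in `ω` whose label has the value
`lift (fun k => mk (x k)) (mk word)` in the free group, which is `1` by `wlbl_closed`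
(with `q = FreeGroup.of`). -/
theorem isForest_thick (s : I → G) (x : K → List (I × Bool))
    (hx : Function.Injective (FreeGroup.lift fun k => (FreeGroup.mk (x k) : FreeGroup I)))
    (ω : Set (G × I)) (hω : IsForest s ω) :
    IsForest (fun k => wval s (x k)) (thick s x ω) := by
  classical
  intro a l hl hg hn
  have h1 := reduced_of_nodup _ a a l hl hn
  have h2 := wlbl_closed s (FreeGroup.of : I → FreeGroup I) ω hω (W5_expand s x l) a
    (W5_walk_expand s x l a a hl) (W5_mem_expand s x ω l hg)
  rw [W5_lbl_expand, ← map_one (FreeGroup.lift fun k => (FreeGroup.mk (x k) : FreeGroup I))] at h2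
  have h3 : (FreeGroup.mk (labels l) : FreeGroup K) = 1 := hx h2
  have h4 : labels l = [] := by
    have h5 := h1.reduce_eq
    rw [← h5, ← FreeGroup.toWord_mk, h3, FreeGroup.toWord_one]
  exact List.map_eq_nil_iff.1 h4

theorem measurable_thick (s : I → G) (x : K → List (I × Bool)) :
    Measurable fun ξ : G × I → Bool => ind (thick s x {e | ξ e = true}) := by
  rw [measurable_pi_iff]
  intro e
  have h : ∀ L : List ((G × I) × Bool),
      MeasurableSet {ξ : G × I → Bool | ∀ y ∈ L, ξ y.1 = true} := by
    intro L
    induction L with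
    | nil => simp
    | cons y L ih =>
      have h1 : {ξ : G × I → Bool | ∀ z ∈ y :: L, ξ z.1 = true} =
          {ξ : G × I → Bool | ξ y.1 = true} ∩ {ξ : G × I → Bool | ∀ z ∈ L, ξ z.1 = true} := by
        ext ξ
        simp
      rw [h1]
      exact (measurableSet_eq_fun (measurable_pi_apply y.1) measurable_const).inter ih
  refine measurable_to_bool ?_
  have h2 : (fun ξ : G × I → Bool => ind (thick s x {e | ξ e = true}) e) ⁻¹' {true} =
      {ξ : G × I → Bool | ∀ y ∈ walkOf s e.1 (x e.2), ξ y.1 = true} := by
    ext ξ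
    simp [ind, thick]
  rw [h2]
  exact h _

theorem thick_trans (s : I → G) (x : K → List (I × Bool)) (g : G) (ξ : G × I → Bool) :
    ind (thick s x {e | trans g ξ e = true}) = trans g (ind (thick s x {e | ξ e = true})) := by
  classical
  funext e
  have h : e ∈ thick s x {e | trans g ξ e = true} ↔
      (g⁻¹ * e.1, e.2) ∈ thick s x {e | ξ e = true} := by
    change (∀ y ∈ walkOf s e.1 (x e.2), ξ (g⁻¹ * y.1.1, y.1.2) = true) ↔
      (∀ y ∈ walkOf s (g⁻¹ * e.1) (x e.2), ξ y.1 = true)
    rw [walkOf_mul, List.forall_mem_map]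
  change decide _ = decide _
  exact decide_eq_decide.2 h

private theorem W5_prob [Fintype I] [DecidableEq I] (s : I → G)
    (P : Measure (G × I → Bool)) [IsProbabilityMeasure P] (hP : ∀ g : G, P.map (trans g) = P)
    (w : List (I × Bool)) (g : G) :
    1 - ∑ i : I, ((w.map Prod.fst).count i : ℝ) * (1 - P.real {ξ | ξ ((1 : G), i) = true}) ≤
      P.real {ξ | ∀ y ∈ walkOf s g w, ξ y.1 = true} := by
  have hinv : ∀ (g : G) (i : I), P.real {ξ | ξ (g, i) = true} =
      P.real {ξ | ξ ((1 : G), i) = true} := by
    intro g i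
    have h1 : MeasurableSet {ξ : G × I → Bool | ξ (g, i) = true} :=
      measurableSet_eq_fun (measurable_pi_apply _) measurable_const
    conv_lhs => rw [← hP g]
    rw [map_measureReal_apply (measurable_trans g) h1]
    congr 1
    ext ξ
    simp [trans]
  have hadd : ∀ (i : I) (w : List (I × Bool)) (d : Bool),
      ∑ j : I, ((((i, d) :: w).map Prod.fst).count j : ℝ) *
        (1 - P.real {ξ | ξ ((1 : G), j) = true}) =
      ∑ j : I, ((w.map Prod.fst).count j : ℝ) * (1 - P.real {ξ | ξ ((1 : G), j) = true}) +
        (1 - P.real {ξ | ξ ((1 : G), i) = true}) := by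
    intro i w d
    have h1 : ∀ j : I, ((((i, d) :: w).map Prod.fst).count j : ℝ) =
        ((w.map Prod.fst).count j : ℝ) + if j = i then 1 else 0 := by
      intro j
      rw [List.map_cons, List.count_cons]
      by_cases hji : j = i
      · subst hji; simp
      · have : ¬ i = j := fun h => hji h.symm
        simp [hji, this]
    simp only [h1, add_mul, Finset.sum_add_distrib, ite_mul, one_mul, zero_mul,
      Finset.sum_ite_eq', Finset.mem_univ, if_true]
  have hstep : ∀ (e : G × I) (L : List ((G × I) × Bool)) (d : Bool),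
      P.real {ξ | ∀ y ∈ L, ξ y.1 = true} - (1 - P.real {ξ | ξ e = true}) ≤
      P.real {ξ | ∀ y ∈ (e, d) :: L, ξ y.1 = true} := by
    intro e L d
    have h1 : MeasurableSet {ξ : G × I → Bool | ξ e = true} :=
      measurableSet_eq_fun (measurable_pi_apply _) measurable_const
    have h2 : P.real {ξ | ξ e = true}ᶜ = 1 - P.real {ξ | ξ e = true} :=
      probReal_compl_eq_one_sub h1
    have h3 : {ξ : G × I → Bool | ∀ y ∈ L, ξ y.1 = true} ⊆
        {ξ | ∀ y ∈ (e, d) :: L, ξ y.1 = true} ∪ {ξ | ξ e = true}ᶜ := by
      intro ξ hξ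
      by_cases h4 : ξ e = true
      · left
        intro y hy
        rcases List.mem_cons.1 hy with rfl | hy
        · exact h4
        · exact hξ y hy
      · right
        exact h4
    have h4 := measureReal_mono (μ := P) h3
    have h5 := measureReal_union_le (μ := P) {ξ | ∀ y ∈ (e, d) :: L, ξ y.1 = true}
      {ξ : G × I → Bool | ξ e = true}ᶜ
    linarith
  induction w generalizing g with
  | nil =>
    have h1 : {ξ : G × I → Bool | ∀ y ∈ walkOf s g [], ξ y.1 = true} = Set.univ := by
      ext ξ
      simp [walkOf]
    rw [h1, probReal_univ]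
    simp
  | cons y w ih =>
    obtain ⟨i, d⟩ := y
    rw [hadd i w d]
    cases d with
    | true =>
      have h1 := hstep (g, i) (walkOf s (g * s i) w) true
      have h2 := ih (g * s i)
      rw [hinv] at h1
      change _ ≤ P.real {ξ | ∀ y ∈ ((g, i), true) :: walkOf s (g * s i) w, ξ y.1 = true}
      linarith
    | false =>
      have h1 := hstep (g * (s i)⁻¹, i) (walkOf s (g * (s i)⁻¹) w) false
      have h2 := ih (g * (s i)⁻¹)
      rw [hinv] at h1
      change _ ≤ P.real {ξ | ∀ y ∈ ((g * (s i)⁻¹, i), false) :: walkOf s (g * (s i)⁻¹) w,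
        ξ y.1 = true}
      linarith

/-- Union bound over the edges of the walk. -/
theorem prob_thick [Fintype I] [DecidableEq I] (s : I → G) (x : K → List (I × Bool))
    (P : Measure (G × I → Bool)) [IsProbabilityMeasure P] (hP : ∀ g : G, P.map (trans g) = P)
    (k : K) :
    1 - ∑ i : I, (((x k).map Prod.fst).count i : ℝ) * (1 - P.real {ξ | ξ ((1 : G), i) = true}) ≤
      P.real {ξ | ((1 : G), k) ∈ thick s x {e | ξ e = true}} :=
  W5_prob s P hP (x k) 1

end Pool.Agent.Helper59.EXP
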