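import Pool.Agent.Helper59.EXP.Word

/-!
EXP-W6: the elements `a ^ j * b * a ^ (-j)` are a basis of a free subgroup.
-/

namespace Pool.Agent.Helper59.EXP

private theorem W6_mk_rep_true (n : ℕ) :
    (FreeGroup.mk (List.replicate n ((0 : Fin 2), true)) : FreeGroup (Fin 2)) =
      FreeGroup.of 0 ^ n := by
  induction n with
  | zero => simp [FreeGroup.one_eq_mk]
  | succ n ih =>
    rw [List.replicate_succ, ← List.singleton_append, ← FreeGroup.mul_mk, ih, pow_succ']
    rfl

private theorem W6_mk_rep_false (n : ℕ) :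
    (FreeGroup.mk (List.replicate n ((0 : Fin 2), false)) : FreeGroup (Fin 2)) =
      (FreeGroup.of 0 ^ n)⁻¹ := by
  induction n with
  | zero => simp [FreeGroup.one_eq_mk]
  | succ n ih =>
    rw [List.replicate_succ, ← List.singleton_append, ← FreeGroup.mul_mk, ih, pow_succ,
      mul_inv_rev]
    rfl

theorem mk_conjWord (j : ℤ) : (FreeGroup.mk (conjWord j) : FreeGroup (Fin 2)) =
    FreeGroup.of 0 ^ j * FreeGroup.of 1 * (FreeGroup.of 0 ^ j)⁻¹ := by
  unfold conjWord
  rw [← FreeGroup.mul_mk, ← FreeGroup.mul_mk]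
  have h1 : (FreeGroup.mk [((1 : Fin 2), true)] : FreeGroup (Fin 2)) = FreeGroup.of 1 := rfl
  rw [h1]
  rcases le_or_gt 0 j with hj | hj
  · obtain ⟨n, rfl⟩ := Int.eq_ofNat_of_zero_le hj
    have e1 : decide ((0 : ℤ) ≤ (n : ℤ)) = true := by simp
    have e2 : decide ((n : ℤ) < 0) = false := by simp
    rw [e1, e2, Int.natAbs_natCast, W6_mk_rep_true, W6_mk_rep_false, zpow_natCast]
  · obtain ⟨n, rfl⟩ : ∃ n : ℕ, j = -(n : ℤ) := ⟨j.natAbs, by omega⟩
    have e1 : decide ((0 : ℤ) ≤ -(n : ℤ)) = false := decide_eq_false (by omega)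
    have e2 : decide (-(n : ℤ) < 0) = true := decide_eq_true hj
    rw [e1, e2, Int.natAbs_neg, Int.natAbs_natCast, W6_mk_rep_true, W6_mk_rep_false, zpow_neg,
      zpow_natCast, inv_inv]

/-- The action of `ℤ` on `FreeGroup ℤ` by shifts. -/
private noncomputable def W6_shift : Multiplicative ℤ →* MulAut (FreeGroup ℤ) where
  toFun n := FreeGroup.freeGroupCongr (Equiv.addLeft n.toAdd)
  map_one' := by
    ext x
    induction x using FreeGroup.induction_on <;> simp_all
  map_mul' m n := by
    ext x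
    induction x using FreeGroup.induction_on <;> simp_all [add_assoc]

private noncomputable def W6_hom :
    FreeGroup (Fin 2) →* FreeGroup ℤ ⋊[W6_shift] Multiplicative ℤ :=
  FreeGroup.lift fun i =>
    if i = 0 then SemidirectProduct.inr (Multiplicative.ofAdd (1 : ℤ))
    else SemidirectProduct.inl (FreeGroup.of (0 : ℤ))

private theorem W6_hom_mk (j : ℤ) : W6_hom (FreeGroup.mk (conjWord j)) =
    SemidirectProduct.inl (FreeGroup.of j) := by
  rw [mk_conjWord]
  have h0 : W6_hom (FreeGroup.of 0) = SemidirectProduct.inr (Multiplicative.ofAdd (1 : ℤ)) := by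
    simp [W6_hom]
  have h1 : W6_hom (FreeGroup.of 1) = SemidirectProduct.inl (FreeGroup.of (0 : ℤ)) := by
    simp [W6_hom]
  have h2 : (SemidirectProduct.inr (Multiplicative.ofAdd (1 : ℤ)) :
      FreeGroup ℤ ⋊[W6_shift] Multiplicative ℤ) ^ j =
      SemidirectProduct.inr (Multiplicative.ofAdd j) := by
    rw [← map_zpow]
    congr 1
    rw [← ofAdd_zsmul, smul_eq_mul, mul_one]
  rw [map_mul, map_mul, map_inv, map_zpow, h0, h1, h2, ← map_inv, ← SemidirectProduct.inl_aut]
  congr 1
  show FreeGroup.freeGroupCongr (Equiv.addLeft (Multiplicative.ofAdd j).toAdd)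
    (FreeGroup.of (0 : ℤ)) = FreeGroup.of j
  simp

/-- Map the free group on `a, b` to the semidirect product of `FreeGroup ℤ` and `ℤ` (shift):
`a ↦ (1, shift)`, `b ↦ (of 0, 1)`. Then `a ^ j * b * a ^ (-j)` is mapped to `(of j, 1)`. -/
theorem conj_injective :
    Function.Injective (FreeGroup.lift fun j : ℤ =>
      (FreeGroup.mk (conjWord j) : FreeGroup (Fin 2))) := by
  have h : W6_hom.comp (FreeGroup.lift fun j : ℤ =>
      (FreeGroup.mk (conjWord j) : FreeGroup (Fin 2))) = SemidirectProduct.inl := by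
    refine FreeGroup.ext_hom _ _ fun j => ?_
    rw [MonoidHom.comp_apply, FreeGroup.lift_apply_of, W6_hom_mk]
  have h2 : Function.Injective (W6_hom ∘ (FreeGroup.lift fun j : ℤ =>
      (FreeGroup.mk (conjWord j) : FreeGroup (Fin 2)))) := by
    rw [← MonoidHom.coe_comp, h]
    exact SemidirectProduct.inl_injective
  exact h2.of_comp

theorem count_conjWord (j : ℤ) : ((conjWord j).map Prod.fst).count 0 = 2 * j.natAbs ∧
    ((conjWord j).map Prod.fst).count 1 = 1 := by
  unfold conjWord
  constructor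
  · simp [two_mul]
  · simp [List.count_replicate]

end Pool.Agent.Helper59.EXP
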