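import Pool.Agent.Helper59.EXP.Word

/-!
EXP-W7: the sum over the 250-th powers.
-/

namespace Pool.Agent.Helper59.EXP

private lemma W7_card (G : Finset (List (Fin 2 × Bool))) (l : ℕ) :
    (G.filter (fun A => A.length = l)).card ≤ 4 ^ l := by
  classical
  have h : ((G.filter (fun A => A.length = l)).card) ≤
      (Finset.univ : Finset (List.Vector (Fin 2 × Bool) l)).card := by
    refine Finset.card_le_card_of_injOn
      (fun A => if h : A.length = l then (⟨A, h⟩ : List.Vector (Fin 2 × Bool) l) else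
        List.Vector.replicate l (0, true)) (fun _ _ => Finset.mem_univ _) ?_
    intro A hA B hB hAB
    have hA' : A.length = l := (Finset.mem_filter.mp hA).2
    have hB' : B.length = l := (Finset.mem_filter.mp hB).2
    have h1 : (if h : A.length = l then (⟨A, h⟩ : List.Vector (Fin 2 × Bool) l) else
        List.Vector.replicate l (0, true)) = ⟨A, hA'⟩ := dif_pos hA'
    have h2 : (if h : B.length = l then (⟨B, h⟩ : List.Vector (Fin 2 × Bool) l) else
        List.Vector.replicate l (0, true)) = ⟨B, hB'⟩ := dif_pos hB'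
    have hAB' := h1.symm.trans (Eq.trans hAB h2)
    exact congrArg Subtype.val hAB'
  refine h.trans (le_of_eq ?_)
  rw [Finset.card_univ, card_vector]
  simp

private lemma W7_term (l : ℕ) (hl : 1 ≤ l) :
    (4 : ℝ) ^ l * (250 * l * ((17 / 18 : ℝ) ^ 250) ^ l) ≤ 2000 * (17 / 18 : ℝ) ^ 250 * (1 / 2) ^ l := by
  set q : ℝ := (17 / 18 : ℝ) ^ 250 with hq
  have hq0 : 0 ≤ q := by positivity
  have hq1 : 8 * q ≤ 1 / 2 := by rw [hq]; norm_num
  obtain ⟨k, rfl⟩ : ∃ k, l = k + 1 := ⟨l - 1, by omega⟩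
  have hk : ((k + 1 : ℕ) : ℝ) ≤ 2 ^ k := by
    have : k + 1 ≤ 2 ^ k := Nat.lt_two_pow_self
    exact_mod_cast this
  have e1 : (4 : ℝ) ^ (k + 1) * (250 * ((k + 1 : ℕ) : ℝ) * q ^ (k + 1))
      ≤ (4 : ℝ) ^ (k + 1) * (250 * 2 ^ k * q ^ (k + 1)) := by gcongr
  have e2 : (4 : ℝ) ^ (k + 1) * (250 * 2 ^ k * q ^ (k + 1)) = 1000 * q * (8 * q) ^ k := by
    have : (8 : ℝ) * q = 4 * 2 * q := by ring
    rw [this, mul_pow, mul_pow, pow_succ, pow_succ]; ring
  have e3 : (8 * q) ^ k ≤ (1 / 2) ^ k := by gcongr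
  calc (4 : ℝ) ^ (k + 1) * (250 * ((k + 1 : ℕ) : ℝ) * q ^ (k + 1))
      ≤ 1000 * q * (8 * q) ^ k := by rw [← e2]; exact e1
    _ ≤ 1000 * q * (1 / 2) ^ k := by gcongr
    _ = 2000 * q * (1 / 2) ^ (k + 1) := by rw [pow_succ]; ring

private lemma W7_num : 4000 * (17 / 18 : ℝ) ^ 250 ≤ 1 / 200 := by norm_num

private lemma W7_len (A : List (Fin 2 × Bool)) : (List.replicate 250 A).flatten.length = 250 * A.length := by
  rw [List.length_flatten, List.map_replicate, List.sum_replicate, smul_eq_mul]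

/-- There are at most `4 ^ l` words `A` of length `l`, and
`∑ l, 250 l * 4 ^ l * (17/18) ^ (250 l) < 1/1000` since `(17/18)^13 < 1/2`. -/
theorem power_sum (F : Finset (List (Fin 2 × Bool)))
    (hF : ∀ r ∈ F, ∃ A : List (Fin 2 × Bool), A ≠ [] ∧ r = (List.replicate 250 A).flatten) :
    ∑ r ∈ F, (r.length : ℝ) * (17 / 18 : ℝ) ^ r.length ≤ 1 / 200 := by
  classical
  choose! f hf1 hf2 using hF
  have hinj : Set.InjOn f F := by
    intro r hr s hs h
    rw [hf2 r hr, hf2 s hs, h]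
  have e1 : ∑ r ∈ F, (r.length : ℝ) * (17 / 18 : ℝ) ^ r.length
      = ∑ A ∈ F.image f, (fun l : ℕ => 250 * (l : ℝ) * ((17 / 18 : ℝ) ^ 250) ^ l) A.length := by
    rw [Finset.sum_image hinj]
    refine Finset.sum_congr rfl fun r hr => ?_
    have hl : r.length = 250 * (f r).length := by
      conv_lhs => rw [hf2 r hr]
      exact W7_len _
    have hp : (17 / 18 : ℝ) ^ (250 * (f r).length) = ((17 / 18 : ℝ) ^ 250) ^ (f r).length := pow_mul _ _ _
    rw [hl, hp]
    push_cast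
    ring
  rw [e1, Finset.sum_comp (fun l : ℕ => 250 * (l : ℝ) * ((17 / 18 : ℝ) ^ 250) ^ l) List.length]
  have e2 : ∀ l ∈ (F.image f).image List.length,
      ((F.image f).filter (fun A => A.length = l)).card • (250 * (l : ℝ) * ((17 / 18 : ℝ) ^ 250) ^ l)
        ≤ 2000 * (17 / 18 : ℝ) ^ 250 * (1 / 2) ^ l := by
    intro l hl
    have hl1 : 1 ≤ l := by
      obtain ⟨A, hA, rfl⟩ := Finset.mem_image.mp hl
      obtain ⟨r, hr, rfl⟩ := Finset.mem_image.mp hA
      exact List.length_pos_iff.mpr (hf1 r hr)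
    refine le_trans ?_ (W7_term l hl1)
    rw [nsmul_eq_mul]
    have hc : (((F.image f).filter (fun A => A.length = l)).card : ℝ) ≤ 4 ^ l := by
      exact_mod_cast W7_card (F.image f) l
    have h0 : 0 ≤ 250 * (l : ℝ) * ((17 / 18 : ℝ) ^ 250) ^ l := by positivity
    exact mul_le_mul_of_nonneg_right hc h0
  refine (Finset.sum_le_sum e2).trans ?_
  rw [← Finset.mul_sum]
  have e3 : ∑ l ∈ (F.image f).image List.length, (1 / 2 : ℝ) ^ l ≤ 2 := by
    refine le_trans (Summable.sum_le_tsum _ (fun _ _ => by positivity) summable_geometric_two) ?_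
    exact le_of_eq tsum_geometric_two
  calc 2000 * (17 / 18 : ℝ) ^ 250 * ∑ l ∈ (F.image f).image List.length, (1 / 2 : ℝ) ^ l
      ≤ 2000 * (17 / 18 : ℝ) ^ 250 * 2 := by gcongr
    _ = 4000 * (17 / 18 : ℝ) ^ 250 := by ring
    _ ≤ 1 / 200 := W7_num

end Pool.Agent.Helper59.EXP
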