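import Pool.Agent.Helper59.EXP.Word

/-!
EXP-W1: words and walks.
-/

namespace Pool.Agent.Helper59.EXP

open Pool.Agent.Helper59.EX

variable {G I : Type} [Group G]

theorem isWalk_walkOf (s : I → G) (g : G) (w : List (I × Bool)) :
    IsWalk s g (walkOf s g w) (g * wval s w) := by
  induction w generalizing g with
  | nil => exact (mul_one g).symm
  | cons x w ih =>
    obtain ⟨i, t⟩ := x
    cases t with
    | false =>
      have h := ih (g * (s i)⁻¹)
      rw [mul_assoc] at h
      exact ⟨inv_mul_cancel_right g (s i), h⟩
    | true =>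
      have h := ih (g * s i)
      rw [mul_assoc] at h
      exact ⟨rfl, h⟩

theorem eq_walkOf (s : I → G) (a b : G) (l : List ((G × I) × Bool)) (h : IsWalk s a l b) :
    l = walkOf s a (labels l) ∧ b = a * wval s (labels l) := by
  induction l generalizing a with
  | nil => exact ⟨rfl, (show a = b from h).symm.trans (mul_one a).symm⟩
  | cons x l ih =>
    obtain ⟨⟨g, i⟩, t⟩ := x
    cases t with
    | false =>
      obtain ⟨h1, h2⟩ := h
      have h1' : g * s i = a := h1
      have hg : g = a * (s i)⁻¹ := by rw [← h1', mul_inv_cancel_right]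
      obtain ⟨h3, h4⟩ := ih g h2
      subst hg
      constructor
      · change _ = ((a * (s i)⁻¹, i), false) :: walkOf s (a * (s i)⁻¹) (labels l)
        rw [← h3]
      · change b = a * ((s i)⁻¹ * wval s (labels l))
        rw [← mul_assoc]
        exact h4
    | true =>
      obtain ⟨h1, h2⟩ := h
      have h1' : g = a := h1
      subst h1'
      obtain ⟨h3, h4⟩ := ih _ h2
      have h3' : l = walkOf s (g * s i) (labels l) := h3
      have h4' : b = g * s i * wval s (labels l) := h4
      constructor
      · change _ = ((g, i), true) :: walkOf s (g * s i) (labels l)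
        rw [← h3']
      · change b = g * (s i * wval s (labels l))
        rw [← mul_assoc]
        exact h4'

theorem labels_walkOf (s : I → G) (g : G) (w : List (I × Bool)) :
    labels (walkOf s g w) = w := by
  induction w generalizing g with
  | nil => rfl
  | cons x w ih =>
    obtain ⟨i, t⟩ := x
    cases t with
    | false =>
      change (i, false) :: labels (walkOf s (g * (s i)⁻¹) w) = _
      rw [ih]
    | true =>
      change (i, true) :: labels (walkOf s (g * s i) w) = _
      rw [ih]

theorem wval_append (s : I → G) (w w' : List (I × Bool)) :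
    wval s (w ++ w') = wval s w * wval s w' := by
  induction w with
  | nil => exact (one_mul _).symm
  | cons x w ih =>
    obtain ⟨i, t⟩ := x
    cases t with
    | false =>
      change (s i)⁻¹ * wval s (w ++ w') = (s i)⁻¹ * wval s w * wval s w'
      rw [ih, mul_assoc]
    | true =>
      change s i * wval s (w ++ w') = s i * wval s w * wval s w'
      rw [ih, mul_assoc]

theorem walkOf_append (s : I → G) (g : G) (w w' : List (I × Bool)) :
    walkOf s g (w ++ w') = walkOf s g w ++ walkOf s (g * wval s w) w' := by
  induction w generalizing g with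
  | nil =>
    change walkOf s g w' = walkOf s (g * 1) w'
    rw [mul_one]
  | cons x w ih =>
    obtain ⟨i, t⟩ := x
    cases t with
    | false =>
      change ((g * (s i)⁻¹, i), false) :: walkOf s (g * (s i)⁻¹) (w ++ w') =
        ((g * (s i)⁻¹, i), false) :: (walkOf s (g * (s i)⁻¹) w ++
          walkOf s (g * ((s i)⁻¹ * wval s w)) w')
      rw [ih, mul_assoc]
    | true =>
      change ((g, i), true) :: walkOf s (g * s i) (w ++ w') =
        ((g, i), true) :: (walkOf s (g * s i) w ++ walkOf s (g * (s i * wval s w)) w')
      rw [ih, mul_assoc]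

theorem walkOf_mul (s : I → G) (h g : G) (w : List (I × Bool)) :
    walkOf s (h * g) w = (walkOf s g w).map fun e => ((h * e.1.1, e.1.2), e.2) := by
  induction w generalizing g with
  | nil => rfl
  | cons x w ih =>
    obtain ⟨i, t⟩ := x
    cases t with
    | false =>
      change ((h * g * (s i)⁻¹, i), false) :: walkOf s (h * g * (s i)⁻¹) w =
        ((h * (g * (s i)⁻¹), i), false) :: (walkOf s (g * (s i)⁻¹) w).map
          fun e => ((h * e.1.1, e.1.2), e.2)
      rw [mul_assoc, ih]
    | true =>
      change ((h * g, i), true) :: walkOf s (h * g * s i) w =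
        ((h * g, i), true) :: (walkOf s (g * s i) w).map fun e => ((h * e.1.1, e.1.2), e.2)
      rw [mul_assoc, ih]

theorem wval_eq_lift (s : I → G) (w : List (I × Bool)) :
    wval s w = FreeGroup.lift s (FreeGroup.mk w) := by
  rw [FreeGroup.lift_mk]
  induction w with
  | nil => rfl
  | cons x w ih =>
    obtain ⟨i, t⟩ := x
    cases t with
    | false =>
      change (s i)⁻¹ * wval s w = _
      rw [ih]
      simp
    | true =>
      change s i * wval s w = _
      rw [ih]
      simp

/-- The label of a walk with pairwise distinct edges is reduced. -/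
theorem reduced_of_nodup (s : I → G) (a b : G) (l : List ((G × I) × Bool)) (h : IsWalk s a l b)
    (hn : (l.map Prod.fst).Nodup) : FreeGroup.IsReduced (labels l) := by
  induction l generalizing a with
  | nil => exact FreeGroup.IsReduced.nil
  | cons x l ih =>
    obtain ⟨⟨u, i⟩, c⟩ := x
    cases l with
    | nil => exact FreeGroup.IsReduced.singleton
    | cons y l =>
      obtain ⟨⟨v, j⟩, d⟩ := y
      have hn' : ((((v, j), d) :: l).map Prod.fst).Nodup := by
        rw [List.map_cons, List.nodup_cons] at hn
        exact hn.2
      have hne : (u, i) ≠ (v, j) := by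
        rw [List.map_cons, List.nodup_cons] at hn
        intro h0
        apply hn.1
        rw [List.map_cons]
        exact List.mem_cons.2 (Or.inl h0)
      change FreeGroup.IsReduced ((i, c) :: (j, d) :: labels l)
      rw [FreeGroup.isReduced_cons_cons]
      refine ⟨?_, ?_⟩
      · intro hij
        have hij' : i = j := hij
        subst hij'
        by_contra hcd
        apply hne
        cases c with
        | true =>
          cases d with
          | true => exact absurd rfl hcd
          | false =>
            obtain ⟨h1, h2, h3⟩ := h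
            have h2' : v * s i = u * s i := h2
            rw [mul_right_cancel h2']
        | false =>
          cases d with
          | false => exact absurd rfl hcd
          | true =>
            obtain ⟨h1, h2, h3⟩ := h
            have h2' : v = u := h2
            rw [h2']
      · cases c with
        | true => exact ih _ h.2 hn'
        | false => exact ih _ h.2 hn'

private theorem split_of_not_nodup {α β : Type} (f : α → β) (l : List α)
    (h : ¬ (l.map f).Nodup) :
    ∃ l1 x l2 y l3, l = l1 ++ x :: (l2 ++ y :: l3) ∧ f x = f y := by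
  induction l with
  | nil => simp at h
  | cons z l ih =>
    rw [List.map_cons, List.nodup_cons] at h
    by_cases h1 : (l.map f).Nodup
    · have h2 : f z ∈ l.map f := by
        by_contra h3
        exact h ⟨h3, h1⟩
      obtain ⟨y, hy, hyz⟩ := List.mem_map.1 h2
      obtain ⟨l2, l3, hl⟩ := List.append_of_mem hy
      exact ⟨[], z, l2, y, l3, by rw [hl]; rfl, hyz.symm⟩
    · obtain ⟨l1, x, l2, y, l3, hl, hxy⟩ := ih h1
      exact ⟨z :: l1, x, l2, y, l3, by rw [hl]; rfl, hxy⟩

private theorem isWalk_append_split (s : I → G) (a b : G) (l l' : List ((G × I) × Bool))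
    (h : IsWalk s a (l ++ l') b) : ∃ c, IsWalk s a l c ∧ IsWalk s c l' b := by
  induction l generalizing a with
  | nil => exact ⟨a, rfl, h⟩
  | cons x l ih =>
    obtain ⟨⟨u, i⟩, c⟩ := x
    cases c with
    | true =>
      obtain ⟨h1, h2⟩ := h
      obtain ⟨c, h3, h4⟩ := ih _ h2
      exact ⟨c, ⟨h1, h3⟩, h4⟩
    | false =>
      obtain ⟨h1, h2⟩ := h
      obtain ⟨c, h3, h4⟩ := ih _ h2
      exact ⟨c, ⟨h1, h3⟩, h4⟩

theorem reduced_sub {l1 l2 : List (I × Bool)} (h : FreeGroup.IsReduced l2)
    (h1 : l1 <:+: l2) : FreeGroup.IsReduced l1 := by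
  obtain ⟨a, b, rfl⟩ := h1
  exact List.IsChain.right_of_append (List.IsChain.left_of_append h)

/-- The edges of a walk labelled by a minimal forbidden word are pairwise distinct. (If two steps
of the walk use the same edge, a proper subword of `r` has the value `1`, and it contains a
member of `R`.) -/
theorem nodup_walkOf (s : I → G) (R : Set (List (I × Bool))) (hR : Forbids s R)
    (r : List (I × Bool)) (hr : r ∈ minWords R) (g : G) :
    ((walkOf s g r).map Prod.fst).Nodup := by
  obtain ⟨hred, hrR, hmin⟩ := hr
  -- a proper nonempty subword of `r` does not have the value `1`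
  have key : ∀ w : List (I × Bool), w <:+: r → w.length < r.length → w ≠ [] →
      wval s w ≠ 1 := by
    intro w hw hlen hne h1
    obtain ⟨r', hr', hr'w⟩ := hR w (reduced_sub hred hw) hne h1
    have h2 := hmin r' hr' (hr'w.trans hw)
    subst h2
    have := hr'w.length_le
    omega
  by_contra hnd
  obtain ⟨l1, x, l2, y, l3, hl, hxy⟩ := split_of_not_nodup Prod.fst _ hnd
  have hwalk := isWalk_walkOf s g r
  rw [hl] at hwalk
  have hlab : labels (l1 ++ x :: (l2 ++ y :: l3)) = r := by rw [← hl, labels_walkOf]
  have hlab2 : r = labels l1 ++ (x.1.2, x.2) :: (labels l2 ++ (y.1.2, y.2) :: labels l3) := by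
    rw [← hlab]
    simp [labels]
  obtain ⟨c1, -, hw1⟩ := isWalk_append_split s _ _ _ _ hwalk
  obtain ⟨⟨u, i⟩, c⟩ := x
  obtain ⟨⟨v, j⟩, d⟩ := y
  have hxy' : ((u, i) : G × I) = (v, j) := hxy
  obtain ⟨rfl, rfl⟩ := Prod.mk.inj hxy'
  -- the subword between the two steps
  have hinf2 : labels l2 <:+: r := by
    rw [hlab2]
    exact ⟨labels l1 ++ [(i, c)], (i, d) :: labels l3, by simp⟩
  have hinfx : (i, c) :: labels l2 <:+: r := by
    rw [hlab2]
    exact ⟨labels l1, (i, d) :: labels l3, by simp⟩
  have hlenr : r.length = (labels l1).length + ((labels l2).length + ((labels l3).length + 1)) + 1 := by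
    rw [hlab2]
    simp
    omega
  have hlen2 : (labels l2).length < r.length := by omega
  have hlenx : ((i, c) :: labels l2).length < r.length := by
    rw [List.length_cons]
    omega
  have hnil : c ≠ d → labels l2 ≠ [] := by
    intro hcd h0
    have h1 : [(i, c), (i, d)] <:+: r := by
      rw [hlab2, h0]
      exact ⟨labels l1, labels l3, by simp⟩
    have h2 := reduced_sub hred h1
    rw [FreeGroup.isReduced_cons_cons] at h2
    exact hcd (h2.1 rfl)
  cases c with
  | true =>
    obtain ⟨-, hw2⟩ := hw1
    obtain ⟨c2, hw3, hw4⟩ := isWalk_append_split s _ _ _ _ hw2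
    obtain ⟨-, hv⟩ := eq_walkOf s _ _ _ hw3
    have hv' : c2 = u * s i * wval s (labels l2) := hv
    cases d with
    | true =>
      obtain ⟨hu, -⟩ := hw4
      have hu' : u = c2 := hu
      apply key _ hinfx hlenx (by simp)
      change s i * wval s (labels l2) = 1
      rw [hv', mul_assoc] at hu'
      exact left_eq_mul.1 hu'
    | false =>
      obtain ⟨hu, -⟩ := hw4
      have hu' : u * s i = c2 := hu
      apply key _ hinf2 hlen2 (hnil (by simp))
      rw [hv'] at hu'
      exact left_eq_mul.1 hu'
  | false =>
    obtain ⟨-, hw2⟩ := hw1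
    obtain ⟨c2, hw3, hw4⟩ := isWalk_append_split s _ _ _ _ hw2
    obtain ⟨-, hv⟩ := eq_walkOf s _ _ _ hw3
    have hv' : c2 = u * wval s (labels l2) := hv
    cases d with
    | true =>
      obtain ⟨hu, -⟩ := hw4
      have hu' : u = c2 := hu
      apply key _ hinf2 hlen2 (hnil (by simp))
      rw [hv'] at hu'
      exact left_eq_mul.1 hu'
    | false =>
      obtain ⟨hu, -⟩ := hw4
      have hu' : u * s i = c2 := hu
      apply key _ hinfx hlenx (by simp)
      change (s i)⁻¹ * wval s (labels l2) = 1
      rw [hv'] at hu'
      rw [← mul_left_cancel hu']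
      simp

end Pool.Agent.Helper59.EXP
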